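import Pool.Agent.X265.Cov.Main

/-!
# Groups of tree automorphisms covered by a group with a wreath recursion

Let `C` be any class of groups with the closure properties `ClosedE C`; the class of the groups which
satisfy the K-theoretic Farrell–Jones conjecture with coefficients in additive categories and finite wreath
products is known to be such a class.

A group `Γ` with a recursion acts on the rooted tree `X^*`, in general not faithfully, and even if `Γ` is a
nice group (free, or the fundamental group of a surface or of a hyperbolic orbifold) the group of
automorphisms of the tree which it induces is a complicated, in general infinitely presented group. The
main example are the iterated monodromy groups: if `p : M_1 → M` is a covering of a path connected space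
`M` by a subspace `M_1` (or, more generally, there is a map `M_1 → M`) then `Γ = π_1(M)` has a recursion, and
the iterated monodromy group is its image in the automorphism group of the tree.

The theorem: let `Γ` be in `C` and let `N` be a set of elements of `Γ` which contains all sections of large
level of every element. If those elements of `N` which act trivially on the tree have trivial sections
at all words of some length, then the group of tree automorphisms induced by `Γ` is in `C`; and so is every
group `G` of tree automorphisms (with vertex permutations in `P` and finitely many different sections
below each vertex) which consists of elements whose sections at some level are induced by elements of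
`Γ`.

For expanding coverings (e.g. postcritically finite rational maps, with the hyperbolic orbifold metric)
`N` consists of finitely many classes of short loops, and the condition says that a short loop all of whose
iterated lifts are loops has contractible lifts, which holds as the diameters of the lifts tend to `0`.
-/

set_option autoImplicit false

namespace Pool.Agent.Results.MP_5d3e93_al.CoveringRecursions

open Pool.Agent.Y110.FJ Pool.Agent.X265.Cov
open Pool.Agent.Y462.SS (IsTree)
open Pool.Agent.X265.Ctr (LocIn)

/-- Let `C` be a class of groups with the closure properties `ClosedE C`, `P` a group of permutations of the
set `X` of letters which is in `C`, and `Γ` a group in `C` with a recursion `R` over `X` such that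
the elements of `Γ` act on `X` by elements of `P` and have only finitely many different sections at letters. Let
`N` be a set of elements of `Γ` such that for every element of `Γ` all sections of some level are in `N`, and
such that those elements of `N` which act trivially on `X^*` have trivial sections on some level. Let `G`
be a group of automorphisms of the tree `X^*` with vertex permutations in `P` and with finitely many
different sections below each vertex, such that for every element of `G` the sections of some level
are induced by elements of `Γ`. Then `G` is in `C`. -/
theorem result (C : ∀ (G : Type) [Group G], Prop) (hC : ClosedE C) (X Γ G : Type) [Group Γ] [Group G]
    (P : Subgroup (Equiv.Perm X)) (hP : C P) (R : Recursion X Γ) (hΓ : C Γ)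
    (hR : ∀ a, R.perm a ∈ P ∧ (Set.range (R.sec a)).Finite) (N : Set Γ)
    (hN : ∀ a, ∃ n, ∀ v : List X, v.length = n → R.at a v ∈ N)
    (hdie : ∀ a ∈ N, (∀ w, R.act a w = w) → ∃ n, ∀ v : List X, v.length = n → R.at a v = 1)
    (f : G →* Equiv.Perm (List X)) (hf : Function.Injective f) (hT : ∀ g, IsTree (f g))
    (hL : ∀ g, LocIn P (f g))
    (hs : ∀ g, ∃ n, ∀ v : List X, v.length = n → ∃ a : Γ, ∀ w, f g (v ++ w) = f g v ++ R.act a w) :
    C G :=
  main hC X Γ G P hP R hΓ hR N hN hdie f hf hT hL hs

end Pool.Agent.Results.MP_5d3e93_al.CoveringRecursions
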