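import Pool.Agent.X263.Bc.Cross

/-!
Let `S = K * G` be a crossed product of a division ring `K` with a group `G` with unique products
(for example a twisted group ring, for an action of `G` on `K`). An invertible matrix over `S` whose
entries off one row and one column are of the form `k · u (g i * h j)` with `k` in `K` represents the
class of a trivial unit `k · u γ` in `K₁(S)`.
-/

set_option autoImplicit false

namespace Pool.Agent.Results.MP_5d3e93_al.CrossedProductBorders

open Matrix

/-- A crossed product `S = K * G`: a ring `S` with a ring homomorphism `ι : K → S` and units `u g`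
of `S`, `g` in `G`, such that `u g · K = K · u g`, `u g · u h ∈ K · u (g h)`, and such that every
element of `S` is a finite sum of terms `ι k · u g` in exactly one way. -/
structure CrossedProduct (K S G : Type) [DivisionRing K] [Ring S] [Group G] where
  /-- the coefficients -/
  ι : K →+* S
  /-- the basis -/
  u : G → Sˣ
  conj : ∀ (g : G) (k : K), ∃ k' : K, (u g : S) * ι k = ι k' * u g
  mul : ∀ g h : G, ∃ k : K, (u g : S) * u h = ι k * u (g * h)
  /-- the elements `u g` are a basis of the left vector space `S` over `K` -/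
  basis : (G →₀ K) ≃+ S
  basis_single : ∀ g k, basis (Finsupp.single g k) = ι k * u g

theorem result (K S G : Type) [DivisionRing K] [Ring S] [Group G] [UniqueProds G]
    (X : CrossedProduct K S G) (n : ℕ) (A : (Matrix (Fin n) (Fin n) S)ˣ) (i₀ j₀ : Fin n)
    (g h : Fin n → G)
    (hA : ∀ i j, i ≠ i₀ → j ≠ j₀ → ∃ k : K, (A : Matrix (Fin n) (Fin n) S) i j =
      X.ι k * X.u (g i * h j)) :
    ∃ (m : ℕ) (k : K) (γ : G)
      (C : (Matrix (Fin n ⊕ Fin (m + 1)) (Fin n ⊕ Fin (m + 1)) S)ˣ), k ≠ 0 ∧
      C ∈ commutator (Matrix (Fin n ⊕ Fin (m + 1)) (Fin n ⊕ Fin (m + 1)) S)ˣ ∧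
      Matrix.fromBlocks (A : Matrix (Fin n) (Fin n) S) 0 0 1 =
        Matrix.diagonal (fun i : Fin n ⊕ Fin (m + 1) => if i = Sum.inr (0 : Fin (m + 1)) then
          X.ι k * X.u γ else 1) *
        (C : Matrix (Fin n ⊕ Fin (m + 1)) (Fin n ⊕ Fin (m + 1)) S) :=
  X263.Bc.Crossed.border ⟨X.ι, X.u, X.conj, X.mul, X.basis, X.basis_single⟩ n A i₀ j₀ g h hA

end Pool.Agent.Results.MP_5d3e93_al.CrossedProductBorders
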