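import Pool.Agent.X265.AFP.Stm

/-!
# Automorphism groups of free products

`C` is any class of groups with the closure properties `ClosedE C` which is closed under extensions with
free kernel. All of this is known for the class of the groups that satisfy the K-theoretic Farrell–Jones
conjecture with coefficients and finite wreath products. `Hol P` is the holomorph `P ⋊ Aut(P)`.

(1) `AutGen G` is the group of automorphisms of the free product of the groups `G i` which is generated by
the automorphisms of the factors and the partial conjugations: for `g ∈ G i` and `j ≠ i` the factor `G j` is
conjugated with `g` and the other factors are fixed. For three nontrivial factors `AutGen G` is in `C` if
and only if the holomorphs of the three factors are in `C`. By a theorem of Fouxe-Rabinovitch (not part of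
the Lean) these are all automorphisms that map every factor to a conjugate of itself, and if the factors
are freely indecomposable and not infinite cyclic this is a subgroup of finite index in the whole
automorphism group of the free product.

(2) Let `G i` be any family of at least two nontrivial groups, `H` any group of automorphisms of the free
product which contains the inner automorphisms and maps every factor to a conjugate of a factor (`Adm`).
If all semidirect products of the `G i` with the infinite cyclic group are in `C` and the group `H / Inn` of
outer automorphisms is in `C`, then `H` is in `C`.

Outline of the proof. For three factors the group of outer automorphisms is the semidirect product
`(G 0 * G 1 * G 2) ⋊ ∏ Aut(G i)`, where `G i` acts by partial conjugations of the next factor: in the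
Bass–Serre tree of the free product a reduced sequence of partial conjugations moves the three vertices
fixed by the factors such that one of them is between the other two, and their distance increases. The
theorem of helper201 on extensions of free products (`X201.FJ.NGPFin`) is applied to this semidirect
product and, in (2), to the extension of `H / Inn` by the free product.
-/

set_option autoImplicit false

namespace Pool.Agent.Results.MP_5d3e93_al.FreeProductAutomorphisms

open Pool.Agent.Y110.FJ Pool.Agent.X265.AFP

/-- Let `C` be a class of groups with the closure properties `ClosedE C` which is closed under extensions
with free kernel. (1) For nontrivial groups `G 0`, `G 1`, `G 2` the group `AutGen G` of automorphisms of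
their free product generated by the partial conjugations and the automorphisms of the factors is in `C` if
and only if the holomorphs of the factors are in `C`. (2) For any family of at least two nontrivial groups
`G i` with all `G i ⋊ ℤ` in `C` and any group `H` of automorphisms of the free product which contains the
inner automorphisms and maps every factor to a conjugate of a factor: if `H / Inn` embeds in a group in `C`
then `H` is in `C`. -/
theorem result (C : ∀ (G : Type) [Group G], Prop) (hC : ClosedE C)
    (hFK : ∀ (H : Type) [Group H] (K : Subgroup H) [K.Normal], IsFreeGroup K → C (H ⧸ K) → C H) :
    ThreeFactors C ∧ AnyFactors C :=
  ⟨three_factors hC hFK, any_factors hC hFK⟩

end Pool.Agent.Results.MP_5d3e93_al.FreeProductAutomorphisms
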