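import Pool.Agent.X176.FJ.Local

/-!
# HNN extensions and amalgamated products: a local criterion

`C` is any class of groups with the closure properties `ClosedE C`, all of which are known for the
class of the groups that satisfy the K-theoretic Farrell–Jones conjecture with coefficients in
additive categories and finite wreath products.

An HNN extension (an amalgamated product) is in `C` if and only if each of its finite pieces is
realized in a group of `C`: for a finite subset `F` of the base group there is an embedding of the
subgroup generated by `F` in a group of `C` in which the partial isomorphism is, on the elements of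
`F` which it moves inside `F`, conjugation by an element (for amalgamated products: there are
embeddings of the subgroups generated by the parts of `F` in the factors, which agree on the part of
`F` in the amalgamated subgroup). Nothing is assumed about the base group, the factors and the
associated subgroups. For locally finite groups the condition always holds.
-/

set_option autoImplicit false

namespace Pool.Agent.Results.MP_5d3e93_al.LocalRealization

open Pool.Agent.Y110.FJ Pool.Agent.X176.FJ

/-- **The local criterion for HNN extensions and amalgamated products.** -/
theorem result : ∀ C : ∀ (G : Type) [Group G], Prop, ClosedE C →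
    -- HNN extensions
    (∀ (M : Type) [Group M] (A B : Subgroup M) (φ : A ≃* B),
      C (HNNExtension M A B φ) ↔ ∀ F : Set M, F.Finite → HReal A B φ C F) ∧
    -- amalgamated products
    (∀ (G : Type) [Group G] (A B K : Subgroup G), Amg A B K →
      (C G ↔ ∀ F : Set G, F.Finite → AReal C A B K F)) ∧
    -- HNN extensions of groups of the class along locally inner isomorphisms
    (∀ (M : Type) [Group M] (A B : Subgroup M) (φ : A ≃* B), C M →
      (∀ F : Set A, F.Finite → ∃ m : M, ∀ a ∈ F, ((φ a : B) : M) = m * a * m⁻¹) →
      C (HNNExtension M A B φ)) ∧
    -- HNN extensions of locally finite groups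
    (∀ (M : Type) [Group M] (A B : Subgroup M) (φ : A ≃* B),
      (∀ F : Set M, F.Finite → Finite (Subgroup.closure F)) → C (HNNExtension M A B φ)) ∧
    -- amalgamated products of locally finite groups
    (∀ (G : Type) [Group G] (A B K : Subgroup G), Amg A B K →
      (∀ F : Set G, F.Finite → F ⊆ A → Finite (Subgroup.closure F)) →
      (∀ F : Set G, F.Finite → F ⊆ B → Finite (Subgroup.closure F)) → C G) := by
  intro C hC
  refine ⟨?_, ?_, ?_, ?_, ?_⟩
  · intro M _ A B φ
    refine ⟨fun h F _ => ?_, hnn_local A B φ hC⟩
    refine ⟨HNNExtension M A B φ, inferInstance, HNNExtension.of.comp (Subgroup.closure F).subtype,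
      HNNExtension.t, h, ?_, ?_⟩
    · exact (HNNExtension.of_injective φ).comp Subtype.val_injective
    · intro a _ _
      have h1 := HNNExtension.t_mul_of (φ := φ) a
      rw [eq_mul_inv_iff_mul_eq]
      exact h1.symm
  · intro G _ A B K hA
    refine ⟨fun h F _ => ?_, amg_local hC hA⟩
    exact ⟨G, inferInstance, Subgroup.subtype _, Subgroup.subtype _, h, Subtype.val_injective,
      Subtype.val_injective, fun _ _ _ _ _ => rfl⟩
  · intro M _ A B φ hM h
    apply hnn_local A B φ hC
    intro F hF
    obtain ⟨m, hm⟩ := h (Subtype.val ⁻¹' F) (hF.preimage Subtype.val_injective.injOn)
    exact ⟨M, inferInstance, (Subgroup.closure F).subtype, m, hM, Subtype.val_injective,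
      fun a ha _ => hm a ha⟩
  · intro M _ A B φ hM
    exact hnn_lf hC hM A B φ
  · intro G _ A B K hA h1 h2
    exact amg_lf hC hA h1 h2

end Pool.Agent.Results.MP_5d3e93_al.LocalRealization
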